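import Pool.Agent.Helper69.LZ.Words

/-!
# The braids `V r s = σ_(r-1) ... σ_1 σ_1 ... σ_(s-1)`, `1 ≤ r ≤ s`

In the coordinates `Λ` (see `Pool.Agent.Helper87.LZ.CaseB`), with `g = Λ_r - t Λ_(r-1)`, the braid
`V r s` replaces `Λ_j` by `t Λ_j + (1 - t ^ j) g` for `j < r` and by `Λ_(j+1) - t ^ j g` for
`r ≤ j < s`. For `r = 1` it is `T_s`, for `r = s` it is the Jucys-Murphy braid.
-/

set_option autoImplicit false

namespace Pool.Agent.Helper89.CX

open Pool.Agent.Helper87.LZ Pool.Agent.Helper69.LZ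

/-- the action of `V r s` -/
def Vr (t : ℂ) (r s : ℕ) (L : ℕ → ℂ) : ℕ → ℂ := fun j =>
  if j < r then t * L j + (1 - t ^ j) * (L r - t * L (r - 1))
  else if j < s then L (j + 1) - t ^ j * (L r - t * L (r - 1)) else L j

/-- the action of a list of pairs, the first one acts first -/
def actV (t : ℂ) (A : List (ℕ × ℕ)) (L : ℕ → ℂ) : ℕ → ℂ := A.foldl (fun M p => Vr t p.1 p.2 M) L

variable {t : ℂ}

@[simp] theorem actV_nil (L : ℕ → ℂ) : actV t [] L = L := rfl

@[simp] theorem actV_cons (p : ℕ × ℕ) (A : List (ℕ × ℕ)) (L : ℕ → ℂ) :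
    actV t (p :: A) L = actV t A (Vr t p.1 p.2 L) := rfl

@[simp] theorem actV_append (A B : List (ℕ × ℕ)) (L : ℕ → ℂ) :
    actV t (A ++ B) L = actV t B (actV t A L) := by
  unfold actV
  rw [List.foldl_append]

theorem Vr_zero {L : ℕ → ℂ} (h0 : L 0 = 0) {r s : ℕ} (hr : 1 ≤ r) : Vr t r s L 0 = 0 := by
  unfold Vr
  rw [if_pos (by omega), h0]
  simp

theorem Vr_of_le {L : ℕ → ℂ} {r s j : ℕ} (hr : r ≤ s) (h : s ≤ j) : Vr t r s L j = L j := by
  unfold Vr
  rw [if_neg (by omega), if_neg (by omega)]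

/-- `V 1 s = T_s` -/
theorem Vr_one {L : ℕ → ℂ} (h0 : L 0 = 0) {s : ℕ} (hs : 1 ≤ s) : Vr t 1 s L = T t s L := by
  funext j
  unfold Vr T
  rw [Nat.sub_self, h0, mul_zero, sub_zero]
  by_cases h1 : j < 1
  · have : j = 0 := by omega
    subst this
    rw [if_pos h1, if_pos (by omega), h0, pow_zero]
    ring
  · rw [if_neg h1]

/-- the colours -/
theorem g_Vr {L : ℕ → ℂ} {r s : ℕ} (hr : 1 ≤ r) (hrs : r ≤ s) (j : ℕ) : g t (Vr t r s L) j =
    if j + 1 < r then t * g t L j + (1 - t) * g t L (r - 1)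
    else if j + 1 < s then g t L (j + 1)
    else if j + 1 = s then t ^ s * g t L (r - 1) + (1 - t) * L s
    else g t L j := by
  obtain ⟨q, rfl⟩ : ∃ q, r = q + 1 := ⟨r - 1, by omega⟩
  unfold g Vr
  rw [Nat.add_sub_cancel]
  by_cases h1 : j + 1 < q + 1
  · rw [if_pos h1, if_pos (by omega), if_pos h1]
    ring
  · rw [if_neg h1, if_neg h1]
    by_cases h2 : j + 1 < s
    · rw [if_pos h2, if_pos h2]
      by_cases h3 : j < q + 1
      · have : j = q := by omega
        subst this
        rw [if_pos h3]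
        ring
      · rw [if_neg h3, if_pos (by omega)]
        ring
    · rw [if_neg h2, if_neg h2]
      by_cases h3 : j + 1 = s
      · subst h3
        rw [if_pos rfl]
        by_cases h4 : j < q + 1
        · have : j = q := by omega
          subst this
          rw [if_pos h4]
          ring
        · rw [if_neg h4, if_pos (by omega)]
          ring
      · rw [if_neg h3, if_neg (by omega), if_neg (by omega)]

theorem Vr_congr {r s n : ℕ} (hr : 1 ≤ r) (hrs : r ≤ s) (hs : s ≤ n) {L L' : ℕ → ℂ}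
    (h : ∀ j ≤ n, L j = L' j) : ∀ j ≤ n, Vr t r s L j = Vr t r s L' j := by
  intro j hj
  unfold Vr
  rw [h r (by omega), h (r - 1) (by omega), h j hj]
  split_ifs with h1 h2
  · rfl
  · rw [h (j + 1) (by omega)]
  · rfl

/-- the letters of `V r s` -/
def wv (r s : ℕ) : List ℕ := (List.range (r - 1)).reverse ++ List.range (s - 1)

/-- the braid word of a list of pairs (letters from `0`) -/
def wdV (A : List (ℕ × ℕ)) : List ℕ := A.flatMap fun p => wv p.1 p.2

@[simp] theorem wdV_nil : wdV [] = [] := rfl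

@[simp] theorem wdV_cons (p : ℕ × ℕ) (A : List (ℕ × ℕ)) : wdV (p :: A) = wv p.1 p.2 ++ wdV A := rfl

/-- going down -/
theorem run_down (q : ℕ) {L : ℕ → ℂ} : ∀ d ≤ q,
    run t ((List.range d).map fun i => q - 1 - i) L = fun j =>
      if q + 1 ≤ j + d ∧ j ≤ q then t * L (j - 1) + (L (q + 1) - t * L q) else L j := by
  intro d
  induction d with
  | zero =>
    intro _
    funext j
    rw [if_neg (by omega)]
    rfl
  | succ d ih =>
    intro hd
    rw [List.range_succ, List.map_append, run_append, ih (by omega)]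
    funext j
    rw [List.map_singleton, run_cons, run_nil]
    unfold sg
    have e1 : q - 1 - d + 1 = q - d := by omega
    rw [e1]
    by_cases hj : j = q - d
    · subst hj
      rw [Function.update_self]
      beta_reduce
      rw [if_neg (by omega : ¬ (q + 1 ≤ q - d + d ∧ q - d ≤ q)),
        if_neg (by omega : ¬ (q + 1 ≤ q - d - 1 + d ∧ q - d - 1 ≤ q)),
        if_pos (by omega : q + 1 ≤ q - d + (d + 1) ∧ q - d ≤ q)]
      rcases Nat.eq_zero_or_pos d with hd0 | hd0
      · subst hd0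
        rw [if_neg (by omega), Nat.sub_zero]
        ring
      · rw [if_pos (by omega)]
        have e2 : q - d + 1 - 1 = q - d := by omega
        rw [e2]
        ring
    · rw [Function.update_of_ne hj]
      by_cases h1 : q + 1 ≤ j + d ∧ j ≤ q
      · rw [if_pos h1, if_pos (by omega)]
      · rw [if_neg h1, if_neg (by omega)]

theorem run_wv {r s : ℕ} (hr : 1 ≤ r) (hrs : r ≤ s) {L : ℕ → ℂ} (h0 : L 0 = 0) :
    run t (wv r s) L = Vr t r s L := by
  obtain ⟨q, rfl⟩ : ∃ q, r = q + 1 := ⟨r - 1, by omega⟩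
  have e1 : (List.range (q + 1 - 1)).reverse = (List.range q).map fun i => q - 1 - i := by
    rw [Nat.add_sub_cancel]
    refine List.ext_getElem (by simp) ?_
    intro i h1 h2
    simp
  unfold wv
  rw [e1, run_append, run_down q q le_rfl]
  have hM0 : (fun j => if q + 1 ≤ j + q ∧ j ≤ q then t * L (j - 1) + (L (q + 1) - t * L q)
      else L j) 0 = 0 := by
    show (if q + 1 ≤ 0 + q ∧ 0 ≤ q then _ else L 0) = 0
    rw [if_neg (by omega), h0]
  rw [run_range t _ _ hM0]
  funext j
  unfold Tr Vr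
  rw [Nat.add_sub_cancel, Nat.sub_add_cancel (by omega : 1 ≤ s)]
  show (if j < s then (if q + 1 ≤ j + 1 + q ∧ j + 1 ≤ q then t * L (j + 1 - 1) +
      (L (q + 1) - t * L q) else L (j + 1)) - t ^ j * (if q + 1 ≤ 1 + q ∧ 1 ≤ q then
      t * L (1 - 1) + (L (q + 1) - t * L q) else L 1) else (if q + 1 ≤ j + q ∧ j ≤ q then
      t * L (j - 1) + (L (q + 1) - t * L q) else L j)) = _
  have e2 : (if q + 1 ≤ 1 + q ∧ 1 ≤ q then t * L (1 - 1) + (L (q + 1) - t * L q) else L 1) =
      L (q + 1) - t * L q := by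
    by_cases hq : 1 ≤ q
    · rw [if_pos (by omega), Nat.sub_self, h0, mul_zero, zero_add]
    · have : q = 0 := by omega
      subst this
      rw [if_neg (by omega), h0, mul_zero, sub_zero]
  rw [e2, Nat.add_sub_cancel]
  by_cases h1 : j < q + 1
  · rw [if_pos h1, if_pos (by omega)]
    by_cases h2 : j = q
    · subst h2
      rw [if_neg (by omega)]
      ring
    · rw [if_pos (by omega)]
      ring
  · rw [if_neg h1]
    by_cases h2 : j < s
    · rw [if_pos h2, if_pos h2, if_neg (by omega)]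
    · rw [if_neg h2, if_neg h2, if_neg (by omega)]

theorem run_wdV {A : List (ℕ × ℕ)} (hA : ∀ p ∈ A, 1 ≤ p.1 ∧ p.1 ≤ p.2) {L : ℕ → ℂ}
    (h0 : L 0 = 0) : run t (wdV A) L = actV t A L := by
  induction A generalizing L with
  | nil => rfl
  | cons p A ih =>
    have hp := hA p (by simp)
    rw [wdV_cons, run_append, run_wv hp.1 hp.2 h0, actV_cons]
    exact ih (fun x hx => hA x (by simp [hx])) (Vr_zero h0 hp.1)

theorem wdV_lt {n : ℕ} {A : List (ℕ × ℕ)} (hA : ∀ p ∈ A, p.1 ≤ p.2 ∧ p.2 ≤ n + 1) :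
    ∀ a ∈ wdV A, a < n := by
  intro a ha
  unfold wdV at ha
  rw [List.mem_flatMap] at ha
  obtain ⟨p, hp, hap⟩ := ha
  unfold wv at hap
  rw [List.mem_append, List.mem_reverse, List.mem_range, List.mem_range] at hap
  have := hA p hp
  omega

end Pool.Agent.Helper89.CX
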