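import Pool.Agent.Helper89.CX.Act
import Pool.Agent.Helper52.TW.Cable

/-!
# Cabling for the braids `V r s`

The `k`-cable of `V r s` is `V (k (r - 1) + 1) (k s)`, `k` times.
-/

set_option autoImplicit false

namespace Pool.Agent.Helper89.CX

open Pool.Agent.Helper87.LZ H52TW

variable {k : ℕ} {t t' : ℂ}

theorem actV_congr : ∀ (A : List (ℕ × ℕ)) (L M : ℕ → ℂ) (n : ℕ),
    (∀ p ∈ A, 1 ≤ p.1 ∧ p.1 ≤ p.2 ∧ p.2 ≤ n) → (∀ j ≤ n, L j = M j) →
    ∀ j ≤ n, actV t A L j = actV t A M j := by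
  intro A
  induction A with
  | nil => intro L M n _ h; exact h
  | cons p A ih =>
    intro L M n hA h
    obtain ⟨a1, a2, a3⟩ := hA p (by simp)
    rw [actV_cons, actV_cons]
    exact ih _ _ n (fun q hq => hA q (by simp [hq])) (Vr_congr a1 a2 a3 h)

/-- `q ≤ k` letters `V (b + 1) R` on a vector whose colours at the places `b, ..., b + k - 1`
agree -/
theorem g_repV {M : ℕ → ℂ} (h0 : M 0 = 0) {b R : ℕ} (hR : b + k ≤ R) {y : ℂ}
    (hy : ∀ i, b ≤ i → i < b + k → g t' M i = y) : ∀ q ≤ k,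
    (actV t' (List.replicate q (b + 1, R)) M 0 = 0 ∧
      ∀ j, R ≤ j → actV t' (List.replicate q (b + 1, R)) M j = M j) ∧
    ∀ i, g t' (actV t' (List.replicate q (b + 1, R)) M) i =
      if i < b then t' ^ q * g t' M i + (1 - t' ^ q) * y
      else if i + q < R then g t' M (i + q)
      else if i < R then t' ^ R * y + (1 - t') * M R
        else g t' M i
  | 0, _ => by
    refine ⟨⟨by simpa using h0, by simp⟩, fun i => ?_⟩
    simp only [List.replicate_zero, actV_nil, add_zero, pow_zero, one_mul, sub_self, zero_mul]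
    split_ifs <;> rfl
  | (q+1), hq => by
    obtain ⟨⟨h1, h2⟩, h3⟩ := g_repV h0 hR hy q (by omega)
    rw [List.replicate_succ', actV_append, actV_cons, actV_nil]
    obtain ⟨N, hN⟩ : ∃ N, N = actV t' (List.replicate q (b + 1, R)) M := ⟨_, rfl⟩
    rw [← hN] at h1 h2 h3
    rw [← hN]
    have hNb : g t' N b = y := by
      rw [h3 b, if_neg (by omega), if_pos (by omega)]
      exact hy _ (by omega) (by omega)
    refine ⟨⟨Vr_zero h1 (by omega), fun j hj => ?_⟩, fun i => ?_⟩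
    · show Vr t' (b + 1) R N j = M j
      rw [Vr_of_le (by omega) hj, h2 j hj]
    · show g t' (Vr t' (b + 1) R N) i = _
      rw [g_Vr (by omega) (by omega), Nat.add_sub_cancel, hNb, h2 R le_rfl]
      by_cases c1 : i < b
      · rw [if_pos (by omega), if_pos c1, h3 i, if_pos c1]
        ring
      · rw [if_neg (by omega), if_neg c1]
        by_cases c2 : i + 1 < R
        · rw [if_pos c2, h3 (i + 1), if_neg (by omega)]
          have e : i + 1 + q = i + (q + 1) := by ring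
          rw [e, if_pos c2, if_pos (by omega : i < R)]
        · rw [if_neg c2]
          by_cases c3 : i + 1 = R
          · rw [if_pos c3, if_neg (by omega), if_pos (by omega)]
          · rw [if_neg c3, h3 i, if_neg c1, if_neg (by omega), if_neg (by omega), if_neg (by omega)]

/-- `V (k (r - 1) + 1) (k s)`, `k` times, at `t'` on the cable is the cable of `V r s` at `t`. -/
theorem actV_up (hk : 1 ≤ k) (ht : t' ^ k = t) {L : ℕ → ℂ} (h0 : L 0 = 0) {r s : ℕ} (hr : 1 ≤ r)
    (hrs : r ≤ s) : actV t' (List.replicate k (k * (r - 1) + 1, k * s)) (up k t t' L) =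
      up k t t' (Vr t r s L) := by
  obtain ⟨q, rfl⟩ : ∃ q, r = q + 1 := ⟨r - 1, by omega⟩
  rw [Nat.add_sub_cancel]
  have hM0 := up_zero (t := t) (t' := t') hk h0
  have hdiv : ∀ i, k * q ≤ i → i < k * q + k → i / k = q := by
    intro i h1 h2
    rw [Nat.div_eq_iff (by omega)]
    constructor
    · rw [mul_comm]; exact h1
    · rw [mul_comm q k]; omega
  have hy : ∀ i, k * q ≤ i → i < k * q + k → g t' (up k t t' L) i = g t L q := by
    intro i h1 h2
    rw [g_up hk ht, hdiv i h1 h2]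
  have hkr : k * q + k ≤ k * s := by
    have : k * (q + 1) ≤ k * s := Nat.mul_le_mul_left k hrs
    rw [mul_add, mul_one] at this
    exact this
  obtain ⟨⟨h1, -⟩, h3⟩ := g_repV hM0 hkr hy k le_rfl
  apply ext_g' (t' := t')
  · rw [h1, up_zero hk (Vr_zero h0 hr)]
  · intro i
    rw [h3 i, g_up hk ht (Vr t (q + 1) s L) i, g_Vr hr hrs, up_mul hk, Nat.add_sub_cancel]
    have hx : t' ^ (k * s) * g t L q + (1 - t') * (br t' k * L s) =
        t ^ s * g t L q + (1 - t) * L s := by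
      rw [pow_mul, ht, ← mul_assoc, br_mul, ht]
    rw [hx, ht]
    have c0 : i < k * q ↔ i / k + 1 < q + 1 := by
      rw [Nat.add_lt_add_iff_right, Nat.div_lt_iff_lt_mul (by omega), mul_comm q k]
    have c1 : i + k < k * s ↔ i / k + 1 < s := by
      rw [← Nat.add_div_right i (by omega : 0 < k), Nat.div_lt_iff_lt_mul (by omega), mul_comm s k]
    have c2 : i < k * s ↔ i / k < s := by
      rw [Nat.div_lt_iff_lt_mul (by omega), mul_comm s k]
    by_cases h4 : i / k + 1 < q + 1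
    · rw [if_pos (c0.2 h4), if_pos h4, g_up hk ht]
    · rw [if_neg (fun h => h4 (c0.1 h)), if_neg h4]
      by_cases h5 : i / k + 1 < s
      · rw [if_pos (c1.2 h5), if_pos h5, g_up hk ht, Nat.add_div_right i (by omega : 0 < k)]
      · rw [if_neg (fun h => h5 (c1.1 h)), if_neg h5]
        by_cases h6 : i / k + 1 = s
        · rw [if_pos (c2.2 (by omega)), if_pos h6]
        · rw [if_neg (fun h => h6 (by have := c2.1 h; omega)), if_neg h6, g_up hk ht]

/-- the cabled word -/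
def cab (k : ℕ) (A : List (ℕ × ℕ)) : List (ℕ × ℕ) :=
  A.flatMap fun p => List.replicate k (k * (p.1 - 1) + 1, k * p.2)

theorem mem_cab {A : List (ℕ × ℕ)} {n : ℕ} (hk : 1 ≤ k)
    (hA : ∀ p ∈ A, 1 ≤ p.1 ∧ p.1 ≤ p.2 ∧ p.2 ≤ n) :
    ∀ p ∈ cab k A, 1 ≤ p.1 ∧ p.1 ≤ p.2 ∧ p.2 ≤ k * n := by
  intro p hp
  unfold cab at hp
  obtain ⟨x, hx, hp⟩ := List.mem_flatMap.1 hp
  rw [List.mem_replicate] at hp
  obtain ⟨a1, a2, a3⟩ := hA x hx
  rw [hp.2]
  obtain ⟨q, hq⟩ : ∃ q, x.1 = q + 1 := ⟨x.1 - 1, by omega⟩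
  refine ⟨by omega, ?_, Nat.mul_le_mul_left k a3⟩
  show k * (x.1 - 1) + 1 ≤ k * x.2
  have h1 : k * (q + 1) ≤ k * x.2 := Nat.mul_le_mul_left k (by omega)
  rw [mul_add, mul_one] at h1
  rw [hq, Nat.add_sub_cancel]
  omega

theorem actV_cable (hk : 1 ≤ k) (ht : t' ^ k = t) (A : List (ℕ × ℕ))
    (hA : ∀ p ∈ A, 1 ≤ p.1 ∧ p.1 ≤ p.2) {L : ℕ → ℂ} (h0 : L 0 = 0) :
    actV t' (cab k A) (up k t t' L) = up k t t' (actV t A L) := by
  induction A generalizing L with
  | nil => rfl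
  | cons p A ih =>
    obtain ⟨a1, a2⟩ := hA p (by simp)
    have e : cab k (p :: A) = List.replicate k (k * (p.1 - 1) + 1, k * p.2) ++ cab k A := rfl
    rw [e, actV_append, actV_up hk ht h0 a1 a2, actV_cons]
    exact ih (fun q hq => hA q (by simp [hq])) (Vr_zero h0 a1)

/-- a fixed vector of the cabled word -/
theorem cablingV (t t' : ℂ) (k n : ℕ) (hk : 1 ≤ k) (ht : t' ^ k = t) (h1 : ‖t‖ < 1)
    (A : List (ℕ × ℕ)) (hA : ∀ p ∈ A, 1 ≤ p.1 ∧ p.1 ≤ p.2) (L : ℕ → ℂ) (h0 : L 0 = 0)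
    (hfix : ∀ j ≤ n, actV t A L j = L j) :
    ∃ L' : ℕ → ℂ, ∃ c : ℂ, c ≠ 0 ∧ L' 0 = 0 ∧ (∀ j ≤ n, L' (k * j) = c * L j) ∧
      ∀ j ≤ k * n, actV t' (cab k A) L' j = L' j := by
  refine ⟨up k t t' L, br t' k, ?_, up_zero hk h0, fun j _ => up_mul hk L j, fun i hi => ?_⟩
  · intro h
    have := br_mul t' k
    rw [h, mul_zero, ht] at this
    have h2 : t = 1 := by linear_combination this
    rw [h2, norm_one] at h1
    exact lt_irrefl _ h1
  · rw [actV_cable hk ht A hA h0]
    have hik : i / k ≤ n := by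
      rw [← Nat.mul_div_cancel_left n (by omega : 0 < k)]
      exact Nat.div_le_div_right hi
    unfold up
    rw [hfix _ hik]
    rcases Nat.eq_zero_or_pos (i % k) with hm | hm
    · rw [hm]; simp
    · have h3 : i / k + 1 ≤ n := by
        by_contra hcon
        have h4 : n ≤ i / k := by omega
        have h5 := Nat.div_add_mod i k
        have h6 : k * n ≤ k * (i / k) := Nat.mul_le_mul_left k h4
        omega
      rw [hfix _ h3]

end Pool.Agent.Helper89.CX
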