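import Pool.Agent.Helper89.CX.Act
import Pool.Agent.Helper43.LZ.Frame

/-!
# Words in the `V r s`: the form does not increase

With `q_j = Λ_j / a_j`, `g = Λ_r - t Λ_(r-1)`, `γ = g / a_1`, `x_j = q_j - γ` the braid `V r s` maps
`x_j` to `t x_j` for `j < r` and to `(a_(j+1) / a_j) x_(j+1)` for `r ≤ j < s`, and
`a_r x_r = t a_(r-1) x_(r-1)`. If `M_r < W_r |a_1|² / |t a_(r-1)|²`, the chain of `Wt.step`, started
at `r`, shows that the form does not increase; equality only if `V r s` acts as `T_s`.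
-/

set_option autoImplicit false

namespace Pool.Agent.Helper89.CX

open Finset Pool.Agent.Helper87.LZ Pool.Agent.Helper43.LZ

variable {t : ℂ} {n : ℕ} {W M : ℕ → ℝ}

/-- the additional condition on the weights -/
def Mid (t : ℂ) (n : ℕ) (W M : ℕ → ℝ) : Prop :=
  ∀ k, k + 2 ≤ n → M (k + 2) * (‖t‖ * ‖a t (k + 1)‖) ^ 2 < W (k + 2) * ‖a t 1‖ ^ 2

/-- the chain, started at `r = p + 2` -/
theorem chainV (hw : Wt t n W M) (x : ℕ → ℂ) (p : ℕ) : ∀ d, p + 2 + d ≤ n →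
    M (p + 2 + d) * ‖x (p + 2 + d)‖ ^ 2
      + ∑ i ∈ range d, W (p + 2 + i) * ‖a t (p + 3 + i) / a t (p + 2 + i) * x (p + 3 + i)
          - a t (p + 2 + i) / a t (p + 1 + i) * x (p + 2 + i)‖ ^ 2
      ≤ M (p + 2) * ‖x (p + 2)‖ ^ 2
        + ∑ i ∈ range d, W (p + 3 + i) * ‖x (p + 3 + i) - x (p + 2 + i)‖ ^ 2 := by
  intro d
  induction d with
  | zero => intro _; simp
  | succ d ih =>
    intro hd
    have e1 := ih (by omega)
    have e2 := hw.step (p + d) (by omega) (x (p + 2 + d)) (x (p + 3 + d))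
    rw [sum_range_succ, sum_range_succ]
    have f1 : p + 2 + (d + 1) = p + 3 + d := by omega
    have f2 : p + d + 2 = p + 2 + d := by omega
    have f3 : p + d + 3 = p + 3 + d := by omega
    have f4 : p + d + 1 = p + 1 + d := by omega
    rw [f2, f3, f4] at e2
    rw [f1]
    linarith

/-- `x_j` for `V r s` -/
noncomputable def xs (t : ℂ) (r : ℕ) (L : ℕ → ℂ) (j : ℕ) : ℂ :=
  L j / a t j - (L r - t * L (r - 1)) / a t 1

theorem a_one : a t 1 = 1 - t := by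
  unfold a
  rw [pow_one]

theorem xs_low (h1 : ‖t‖ < 1) {r s : ℕ} (L : ℕ → ℂ) {j : ℕ} (hj : 1 ≤ j) (hjr : j < r) :
    Vr t r s L j / a t j - (L r - t * L (r - 1)) / a t 1 = t * xs t r L j := by
  obtain ⟨i, rfl⟩ : ∃ i, j = i + 1 := ⟨j - 1, by omega⟩
  have e1 := a_ne h1 i
  have e3 := a_ne h1 0
  simp only [zero_add] at e3
  unfold Vr xs
  rw [if_pos hjr]
  obtain ⟨g, hg⟩ : ∃ g, g = L r - t * L (r - 1) := ⟨_, rfl⟩
  rw [← hg]
  have e4 : (1 : ℂ) - t ^ (i + 1) = a t (i + 1) := rfl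
  rw [e4]
  have e5 := a_one (t := t)
  field_simp
  rw [e5]
  ring

theorem xs_mid (h1 : ‖t‖ < 1) {r s : ℕ} (L : ℕ → ℂ) {j : ℕ} (hj : 1 ≤ j) (hr : r ≤ j) (hjs : j < s) :
    Vr t r s L j / a t j - (L r - t * L (r - 1)) / a t 1 = a t (j + 1) / a t j * xs t r L (j + 1) := by
  obtain ⟨i, rfl⟩ : ∃ i, j = i + 1 := ⟨j - 1, by omega⟩
  have e1 := a_ne h1 i
  have e2 := a_ne h1 (i + 1)
  have e3 := a_ne h1 0
  simp only [zero_add] at e3
  unfold Vr xs
  rw [if_neg (by omega), if_pos hjs]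
  obtain ⟨g, hg⟩ : ∃ g, g = L r - t * L (r - 1) := ⟨_, rfl⟩
  rw [← hg]
  field_simp
  unfold a
  ring

theorem xs_rel (h1 : ‖t‖ < 1) {p : ℕ} (L : ℕ → ℂ) :
    a t (p + 2) * xs t (p + 2) L (p + 2) = t * a t (p + 1) * xs t (p + 2) L (p + 1) := by
  have e1 := a_ne h1 p
  have e2 := a_ne h1 (p + 1)
  have e3 := a_ne h1 0
  simp only [zero_add] at e3
  unfold xs
  have e4 : p + 2 - 1 = p + 1 := by omega
  rw [e4]
  have e5 : p + 1 + 1 = p + 2 := by omega
  rw [e5] at e2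
  field_simp
  unfold a
  ring

theorem xs_sub (h1 : ‖t‖ < 1) {p : ℕ} (L : ℕ → ℂ) :
    t * a t (p + 1) * (xs t (p + 2) L (p + 2) - xs t (p + 2) L (p + 1)) =
      -(a t 1 * xs t (p + 2) L (p + 2)) := by
  have e := xs_rel h1 (p := p) L
  have e2 : a t (p + 2) = a t 1 + t * a t (p + 1) := by
    unfold a
    ring
  rw [e2] at e
  linear_combination e

/-- one letter with `2 ≤ r`: the form does not increase; in the case of equality `V r s` acts as
`T_s` -/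
theorem HW_V (h1 : ‖t‖ < 1) (hw : Wt t n W M) (hm : Mid t n W M) (p d : ℕ) (hk : p + 2 + d ≤ n)
    (L : ℕ → ℂ) :
    HW t n W (Vr t (p + 2) (p + 2 + d) L)
      + (M (p + 2 + d) - W (p + 2 + d) * ‖1 - a t (p + 2 + d) / a t (p + 1 + d)‖ ^ 2)
        * ‖xs t (p + 2) L (p + 2 + d)‖ ^ 2
      + (W (p + 2) * ‖xs t (p + 2) L (p + 2) - xs t (p + 2) L (p + 1)‖ ^ 2
          - M (p + 2) * ‖xs t (p + 2) L (p + 2)‖ ^ 2)
      + (1 - ‖t‖ ^ 2) * ∑ i ∈ range p, W (i + 2) * ‖xs t (p + 2) L (i + 2) - xs t (p + 2) L (i + 1)‖ ^ 2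
      ≤ HW t n W L := by
  obtain ⟨l, rfl⟩ : ∃ l, n = p + 2 + d + l := ⟨n - (p + 2 + d), by omega⟩
  obtain ⟨x, hx⟩ : ∃ x, x = xs t (p + 2) L := ⟨_, rfl⟩
  have hc := chainV hw x p d (by omega)
  have hold : HW t (p + 2 + d + l) W L
      = (∑ i ∈ range p, W (i + 2) * ‖x (i + 2) - x (i + 1)‖ ^ 2)
      + W (p + 2) * ‖x (p + 2) - x (p + 1)‖ ^ 2
      + (∑ i ∈ range d, W (p + 3 + i) * ‖x (p + 3 + i) - x (p + 2 + i)‖ ^ 2)
      + ∑ i ∈ range l, W (p + 3 + d + i) * ‖x (p + 3 + d + i) - x (p + 2 + d + i)‖ ^ 2 := by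
    unfold HW
    have e : p + 2 + d + l - 1 = p + 1 + d + l := by omega
    rw [e, sum_range_add, sum_range_add, sum_range_succ]
    have hq : ∀ i j, L i / a t i - L j / a t j = x i - x j := by
      intro i j
      rw [hx]
      unfold xs
      ring
    congr 1
    · congr 1
      · congr 1
        · exact sum_congr rfl fun i _ => by rw [hq]
        · rw [hq]
      · refine sum_congr rfl fun i _ => ?_
        rw [hq]
        have f1 : p + 1 + i + 2 = p + 3 + i := by omega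
        have f2 : p + 1 + i + 1 = p + 2 + i := by omega
        rw [f1, f2]
    · refine sum_congr rfl fun i _ => ?_
      rw [hq]
      have f1 : p + 1 + d + i + 2 = p + 3 + d + i := by omega
      have f2 : p + 1 + d + i + 1 = p + 2 + d + i := by omega
      rw [f1, f2]
  obtain ⟨y, hy⟩ : ∃ y : ℕ → ℂ, y = fun j => Vr t (p + 2) (p + 2 + d) L j / a t j -
      (L (p + 2) - t * L (p + 2 - 1)) / a t 1 := ⟨_, rfl⟩
  have y1 : ∀ j, 1 ≤ j → j < p + 2 → y j = t * x j := by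
    intro j hj hjr
    rw [hy, hx]
    exact xs_low h1 L hj hjr
  have y2 : ∀ j, 1 ≤ j → p + 2 ≤ j → j < p + 2 + d → y j = a t (j + 1) / a t j * x (j + 1) := by
    intro j hj hjr hjs
    rw [hy, hx]
    exact xs_mid h1 L hj hjr hjs
  have y3 : ∀ j, p + 2 + d ≤ j → y j = x j := by
    intro j hj
    rw [hy, hx]
    show Vr t (p + 2) (p + 2 + d) L j / a t j - _ = _
    rw [Vr_of_le (by omega) hj]
    rfl
  have hrel : a t (p + 2) / a t (p + 1) * x (p + 2) = t * x (p + 1) := by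
    have e := xs_rel h1 (p := p) L
    rw [← hx] at e
    have e1 := a_ne h1 p
    rw [div_mul_eq_mul_div, e, mul_assoc, mul_div_assoc]
    congr 1
    rw [mul_comm, mul_div_assoc, div_self e1, mul_one]
  have y4 : ∀ m, m ≤ d → y (p + 1 + m) = a t (p + 2 + m) / a t (p + 1 + m) * x (p + 2 + m) := by
    intro m hmd
    rcases Nat.eq_zero_or_pos m with h0 | h0
    · subst h0
      rw [add_zero, add_zero, hrel]
      exact y1 _ (by omega) (by omega)
    · rw [y2 _ (by omega) (by omega) (by omega)]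
      have f1 : p + 1 + m + 1 = p + 2 + m := by omega
      rw [f1]
  have hnew : HW t (p + 2 + d + l) W (Vr t (p + 2) (p + 2 + d) L)
      = ‖t‖ ^ 2 * (∑ i ∈ range p, W (i + 2) * ‖x (i + 2) - x (i + 1)‖ ^ 2)
      + (∑ i ∈ range d, W (p + 2 + i) * ‖a t (p + 3 + i) / a t (p + 2 + i) * x (p + 3 + i)
          - a t (p + 2 + i) / a t (p + 1 + i) * x (p + 2 + i)‖ ^ 2)
      + W (p + 2 + d) * (‖1 - a t (p + 2 + d) / a t (p + 1 + d)‖ ^ 2 * ‖x (p + 2 + d)‖ ^ 2)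
      + ∑ i ∈ range l, W (p + 3 + d + i) * ‖x (p + 3 + d + i) - x (p + 2 + d + i)‖ ^ 2 := by
    unfold HW
    have e : p + 2 + d + l - 1 = p + d + 1 + l := by omega
    rw [e, sum_range_add, sum_range_succ, sum_range_add]
    have hq : ∀ i j, Vr t (p + 2) (p + 2 + d) L i / a t i - Vr t (p + 2) (p + 2 + d) L j / a t j
        = y i - y j := by
      intro i j
      rw [hy]
      ring
    congr 1
    · congr 1
      · congr 1
        · rw [mul_sum]
          refine sum_congr rfl fun i hi => ?_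
          rw [mem_range] at hi
          rw [hq, y1 _ (by omega) (by omega), y1 _ (by omega) (by omega), ← mul_sub, norm_mul,
            mul_pow]
          ring
        · refine sum_congr rfl fun i hi => ?_
          rw [mem_range] at hi
          have f1 : p + i + 2 = p + 2 + i := by omega
          have f2 : p + i + 1 = p + 1 + i := by omega
          have f3 : p + 2 + i + 1 = p + 3 + i := by omega
          rw [hq, f1, f2, y4 i (by omega), y2 (p + 2 + i) (by omega) (by omega) (by omega), f3]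
      · have f1 : p + d + 2 = p + 2 + d := by omega
        have f2 : p + d + 1 = p + 1 + d := by omega
        rw [hq, f1, f2, y4 d le_rfl, y3 _ le_rfl, ← mul_pow, ← norm_mul]
        congr 3
        ring
    · refine sum_congr rfl fun i _ => ?_
      have f1 : p + d + 1 + i + 2 = p + 3 + d + i := by omega
      have f2 : p + d + 1 + i + 1 = p + 2 + d + i := by omega
      rw [hq, f1, f2, y3 _ (by omega), y3 _ (by omega)]
  rw [hold, hnew, ← hx]
  linarith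

theorem mid_term (h1 : ‖t‖ < 1) (ht0 : t ≠ 0) (hm : Mid t n W M) {p : ℕ} (hp : p + 2 ≤ n)
    (L : ℕ → ℂ) :
    0 ≤ W (p + 2) * ‖xs t (p + 2) L (p + 2) - xs t (p + 2) L (p + 1)‖ ^ 2
        - M (p + 2) * ‖xs t (p + 2) L (p + 2)‖ ^ 2 ∧
    (W (p + 2) * ‖xs t (p + 2) L (p + 2) - xs t (p + 2) L (p + 1)‖ ^ 2
        - M (p + 2) * ‖xs t (p + 2) L (p + 2)‖ ^ 2 ≤ 0 → xs t (p + 2) L (p + 2) = 0) := by
  have e := congrArg (fun z => ‖z‖ ^ 2) (xs_sub h1 (p := p) L)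
  simp only [norm_mul, norm_neg, mul_pow] at e
  have e2 := hm p hp
  have e1 := norm_pos_iff.2 (a_ne h1 p)
  have e0 := norm_pos_iff.2 ht0
  obtain ⟨X, hX⟩ : ∃ X, X = ‖xs t (p + 2) L (p + 2)‖ ^ 2 := ⟨_, rfl⟩
  obtain ⟨D, hD⟩ : ∃ D, D = ‖xs t (p + 2) L (p + 2) - xs t (p + 2) L (p + 1)‖ ^ 2 := ⟨_, rfl⟩
  rw [← hX, ← hD] at e ⊢
  have hX0 : 0 ≤ X := by rw [hX]; positivity
  obtain ⟨τ, hτ⟩ : ∃ τ, τ = (‖t‖ * ‖a t (p + 1)‖) ^ 2 := ⟨_, rfl⟩
  rw [← hτ] at e2
  have hτ0 : 0 < τ := by rw [hτ]; positivity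
  have e3 : τ * D = ‖a t 1‖ ^ 2 * X := by rw [hτ, mul_pow]; exact e
  have e4 : τ * (W (p + 2) * D - M (p + 2) * X) = (W (p + 2) * ‖a t 1‖ ^ 2 - M (p + 2) * τ) * X := by
    linear_combination W (p + 2) * e3
  have e5 : 0 < W (p + 2) * ‖a t 1‖ ^ 2 - M (p + 2) * τ := by linarith
  refine ⟨?_, fun h => ?_⟩
  · by_contra hc
    push Not at hc
    have h2 : τ * (W (p + 2) * D - M (p + 2) * X) < 0 := mul_neg_of_pos_of_neg hτ0 hc
    have h3 : 0 ≤ (W (p + 2) * ‖a t 1‖ ^ 2 - M (p + 2) * τ) * X := mul_nonneg e5.le hX0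
    linarith
  · have h2 : τ * (W (p + 2) * D - M (p + 2) * X) ≤ 0 := mul_nonpos_of_nonneg_of_nonpos hτ0.le h
    have h3 : X = 0 := by
      by_contra hc
      have h4 : 0 < X := lt_of_le_of_ne hX0 (Ne.symm hc)
      have := mul_pos e5 h4
      linarith
    rw [hX] at h3
    exact norm_eq_zero.1 (pow_eq_zero_iff two_ne_zero |>.1 h3)

/-- **one letter** -/
theorem HW_le (h1 : ‖t‖ < 1) (ht0 : t ≠ 0) (hw : Wt t n W M) (hm : Mid t n W M) {r s : ℕ}
    (hr : 1 ≤ r) (hrs : r ≤ s) (hs : s ≤ n) {L : ℕ → ℂ} (h0 : L 0 = 0) :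
    HW t n W (Vr t r s L) ≤ HW t n W L ∧
      (HW t n W (Vr t r s L) = HW t n W L → ∀ j ≤ n, Vr t r s L j = T t s L j) := by
  rcases Nat.lt_or_ge r 2 with hr2 | hr2
  · have hr1 : r = 1 := by omega
    subst hr1
    rw [Vr_one h0 (by omega)]
    exact ⟨HW_T h1 hw s hs L, fun _ _ _ => rfl⟩
  obtain ⟨p, rfl⟩ : ∃ p, r = p + 2 := ⟨r - 2, by omega⟩
  obtain ⟨d, rfl⟩ : ∃ d, s = p + 2 + d := ⟨s - (p + 2), by omega⟩
  have key := HW_V h1 hw hm p d hs L
  obtain ⟨m1, m2⟩ := mid_term h1 ht0 hm (p := p) (by omega) L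
  have f1 := hw.fin (p + d) (by omega)
  have f2 : p + d + 2 = p + 2 + d := by omega
  have f3 : p + d + 1 = p + 1 + d := by omega
  rw [f2, f3] at f1
  have k1 : 0 ≤ (M (p + 2 + d) - W (p + 2 + d) * ‖1 - a t (p + 2 + d) / a t (p + 1 + d)‖ ^ 2)
        * ‖xs t (p + 2) L (p + 2 + d)‖ ^ 2 := mul_nonneg (by linarith) (sq_nonneg _)
  have ht2 : 0 < 1 - ‖t‖ ^ 2 := by
    have := pow_lt_one₀ (norm_nonneg t) h1 (n := 2) (by norm_num)
    linarith
  have hS : ∀ i ∈ range p, 0 ≤ W (i + 2) * ‖xs t (p + 2) L (i + 2) - xs t (p + 2) L (i + 1)‖ ^ 2 := by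
    intro i hi
    rw [mem_range] at hi
    exact mul_nonneg (hw.W_pos i (by omega)).le (sq_nonneg _)
  have k2 := mul_nonneg ht2.le (sum_nonneg hS)
  refine ⟨by linarith, fun heq => ?_⟩
  have e1 : xs t (p + 2) L (p + 2) = 0 := m2 (by linarith)
  have e2 : xs t (p + 2) L (p + 1) = 0 := by
    have e := xs_rel h1 (p := p) L
    rw [e1, mul_zero] at e
    rcases mul_eq_zero.1 e.symm with h | h
    · exact absurd h (mul_ne_zero ht0 (a_ne h1 p))
    · exact h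
  have e3 : ∑ i ∈ range p, W (i + 2) * ‖xs t (p + 2) L (i + 2) - xs t (p + 2) L (i + 1)‖ ^ 2 = 0 := by
    have h2 : (1 - ‖t‖ ^ 2) * ∑ i ∈ range p, W (i + 2) * ‖xs t (p + 2) L (i + 2) -
        xs t (p + 2) L (i + 1)‖ ^ 2 ≤ 0 := by linarith
    have h3 := sum_nonneg hS
    by_contra hc
    have h4 := lt_of_le_of_ne h3 (Ne.symm hc)
    have := mul_pos ht2 h4
    linarith
  have e4 : ∀ i, i < p → xs t (p + 2) L (i + 2) = xs t (p + 2) L (i + 1) := by
    intro i hi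
    have h2 := (sum_eq_zero_iff_of_nonneg hS).1 e3 i (mem_range.2 hi)
    have h3 := hw.W_pos i (by omega)
    rcases mul_eq_zero.1 h2 with h | h
    · exact absurd h h3.ne'
    · exact sub_eq_zero.1 (norm_eq_zero.1 (pow_eq_zero_iff two_ne_zero |>.1 h))
  have e5 : ∀ i, i ≤ p → xs t (p + 2) L (p + 1 - i) = 0 := by
    intro i
    induction i with
    | zero => intro _; exact e2
    | succ i ih =>
      intro hi
      have h2 := e4 (p - (i + 1)) (by omega)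
      have g1 : p - (i + 1) + 2 = p + 1 - i := by omega
      have g2 : p - (i + 1) + 1 = p + 1 - (i + 1) := by omega
      rw [g1, g2] at h2
      rw [← h2]
      exact ih (by omega)
  have e6 : ∀ j, 1 ≤ j → j ≤ p + 2 → xs t (p + 2) L j = 0 := by
    intro j hj hj2
    rcases Nat.lt_or_ge j (p + 2) with h | h
    · have h2 := e5 (p + 1 - j) (by omega)
      have g1 : p + 1 - (p + 1 - j) = j := by omega
      rwa [g1] at h2
    · have : j = p + 2 := by omega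
      rw [this]
      exact e1
  obtain ⟨g, hg⟩ : ∃ g, g = L (p + 2) - t * L (p + 2 - 1) := ⟨_, rfl⟩
  have e7 : ∀ j, 1 ≤ j → j ≤ p + 2 → L j = a t j * (g / a t 1) := by
    intro j hj hj2
    have h2 := e6 j hj hj2
    obtain ⟨i, rfl⟩ : ∃ i, j = i + 1 := ⟨j - 1, by omega⟩
    have h3 := a_ne h1 i
    unfold xs at h2
    rw [← hg, sub_eq_zero, div_eq_iff h3] at h2
    rw [h2]
    ring
  have ha1 := a_ne h1 0
  simp only [zero_add] at ha1
  have e8 : L 1 = g := by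
    rw [e7 1 le_rfl (by omega), mul_div_cancel₀ _ ha1]
  intro j _
  unfold Vr T
  rw [← hg]
  by_cases c1 : j < p + 2
  · rw [if_pos c1, if_pos (by omega), e8]
    rcases Nat.eq_zero_or_pos j with hj0 | hj0
    · subst hj0
      rw [h0, zero_add, e8]
      simp
    · rw [e7 j hj0 (by omega), e7 (j + 1) (by omega) (by omega)]
      obtain ⟨γ, hγ⟩ : ∃ γ, γ = g / a t 1 := ⟨_, rfl⟩
      have hγ2 : g = a t 1 * γ := by
        rw [hγ]
        field_simp
      rw [← hγ, hγ2]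
      unfold a
      ring
  · rw [if_neg c1]
    by_cases c2 : j < p + 2 + d
    · rw [if_pos c2, if_pos c2, e8]
    · rw [if_neg c2, if_neg c2]

/-- a word -/
theorem HW_actV (h1 : ‖t‖ < 1) (ht0 : t ≠ 0) (hw : Wt t n W M) (hm : Mid t n W M) (hn1 : 1 ≤ n) :
    ∀ (A : List (ℕ × ℕ)), (∀ p ∈ A, 1 ≤ p.1 ∧ p.1 ≤ p.2 ∧ p.2 ≤ n) → ∀ L : ℕ → ℂ, L 0 = 0 →
      HW t n W (actV t A L) ≤ HW t n W L ∧
        (HW t n W (actV t A L) = HW t n W L → ∀ j ≤ n, actV t A L j = act t (A.map Prod.snd) L j) := by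
  intro A
  induction A with
  | nil => intro _ L _; exact ⟨le_refl _, fun _ _ _ => rfl⟩
  | cons p A ih =>
    intro hA L h0
    obtain ⟨a1, a2, a3⟩ := hA p (by simp)
    have hA' : ∀ q ∈ A, 1 ≤ q.1 ∧ q.1 ≤ q.2 ∧ q.2 ≤ n := fun q hq => hA q (by simp [hq])
    obtain ⟨b1, b2⟩ := ih hA' (Vr t p.1 p.2 L) (Vr_zero h0 a1)
    obtain ⟨c1, c2⟩ := HW_le h1 ht0 hw hm a1 a2 a3 h0
    rw [actV_cons]
    refine ⟨b1.trans c1, fun heq => ?_⟩
    have d1 : HW t n W (Vr t p.1 p.2 L) = HW t n W L := le_antisymm c1 (by rw [← heq]; exact b1)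
    have d2 := b2 (by rw [heq, d1])
    intro j hj
    rw [d2 j hj, List.map_cons, act_cons]
    refine act_congr (n := n) _ _ _ ?_ hn1 (c2 d1) j hj
    intro r hr
    obtain ⟨q, hq, rfl⟩ := List.mem_map.1 hr
    exact (hA' q hq).2.2

/-- **No fixed vector**: a word in the `V r s`, `1 ≤ r ≤ s ≤ n`, with a letter `s = n`. -/
theorem no_fixedV (h1 : ‖t‖ < 1) (ht0 : t ≠ 0) (hw : Wt t n W M) (hm : Mid t n W M) (hn1 : 1 ≤ n)
    (A : List (ℕ × ℕ)) (hA : ∀ p ∈ A, 1 ≤ p.1 ∧ p.1 ≤ p.2 ∧ p.2 ≤ n)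
    (hn : n ∈ A.map Prod.snd ∨ n ≤ 1) {L : ℕ → ℂ} (hL0 : L 0 = 0) (hLn : L n = 0)
    (hfix : ∀ j ≤ n, actV t A L j = L j) : ∀ j ≤ n, L j = 0 := by
  have e := (HW_actV h1 ht0 hw hm hn1 A hA L hL0).2 (HW_congr hfix)
  refine no_fixed h1 hw (A.map Prod.snd) ?_ hn hL0 hLn fun j hj => ?_
  · intro r hr
    obtain ⟨q, hq, rfl⟩ := List.mem_map.1 hr
    exact (hA q hq).2.2
  · rw [← e j hj, hfix j hj]

end Pool.Agent.Helper89.CX
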