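import Pool.Agent.Helper89.CX.Frame
import Pool.Agent.Helper89.CX.Cable
import Pool.Agent.Helper60.LZ.Words

/-!
# Words in the `V r s` have no fixed vector outside of the sector
-/

set_option autoImplicit false

namespace Pool.Agent.Helper89.CX

open Pool.Agent.Helper43.LZ Pool.Agent.Helper87.LZ Pool.Agent.Helper69.LZ H52TW
open Pool.Agent.Helper27.LZ (D)

/-- the additional condition for the weights of `Pool.Agent.Helper54.TW.wt_of_SS` -/
theorem mid_of {t : ℂ} {α β : ℝ} (hα : 0 < α)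
    (ht : t = Complex.exp (-2 * ((α : ℂ) + β * Complex.I))) {n : ℕ} {l : ℕ → ℝ}
    (hl : ∀ k, k + 2 ≤ n → 0 < l (k + 2) + (k + 2 : ℕ) * α) :
    Mid t n (fun r => Real.exp (l r + r * α) * (‖a t (r - 1)‖ * ‖a t r‖))
      (fun r => (Real.exp (4 * α - l r - r * α) * ‖a t 1‖ ^ 2) * (‖a t r‖ / ‖a t (r - 1)‖)) := by
  have hnt := Pool.Agent.Helper54.TW.norm_t ht
  have h1 : ‖t‖ < 1 := by
    rw [hnt]
    exact pow_lt_one₀ (Real.exp_pos _).le (Real.exp_lt_one_iff.2 (by linarith)) (by norm_num)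
  intro k hk
  have e1 := norm_pos_iff.2 (a_ne h1 k)
  have e2 : 0 < ‖a t (k + 2)‖ := norm_pos_iff.2 (a_ne h1 (k + 1))
  have e3 := norm_pos_iff.2 (a_ne h1 0)
  simp only [zero_add] at e3
  have f3 : k + 2 - 1 = k + 1 := by omega
  simp only [f3]
  have hE : Real.exp (4 * α - l (k + 2) - (k + 2 : ℕ) * α) * ‖t‖ ^ 2 =
      Real.exp (-(l (k + 2) + (k + 2 : ℕ) * α)) := by
    have e4 : ‖t‖ ^ 2 = Real.exp (-(4 * α)) := by
      rw [hnt, ← pow_mul, ← Real.exp_nat_mul]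
      congr 1
      push_cast
      ring
    rw [e4, ← Real.exp_add]
    congr 1
    ring
  have hlt : Real.exp (-(l (k + 2) + (k + 2 : ℕ) * α)) < Real.exp (l (k + 2) + (k + 2 : ℕ) * α) :=
    Real.exp_lt_exp.2 (by linarith [hl k hk])
  have e5 : Real.exp (4 * α - l (k + 2) - (k + 2 : ℕ) * α) * ‖a t 1‖ ^ 2 *
      (‖a t (k + 2)‖ / ‖a t (k + 1)‖) * (‖t‖ * ‖a t (k + 1)‖) ^ 2 =
      (Real.exp (4 * α - l (k + 2) - (k + 2 : ℕ) * α) * ‖t‖ ^ 2) *
        (‖a t 1‖ ^ 2 * (‖a t (k + 1)‖ * ‖a t (k + 2)‖)) := by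
    field_simp
  have e6 : Real.exp (l (k + 2) + (k + 2 : ℕ) * α) * (‖a t (k + 1)‖ * ‖a t (k + 2)‖) *
      ‖a t 1‖ ^ 2 = Real.exp (l (k + 2) + (k + 2 : ℕ) * α) *
        (‖a t 1‖ ^ 2 * (‖a t (k + 1)‖ * ‖a t (k + 2)‖)) := by ring
  rw [e5, e6, hE]
  exact mul_lt_mul_of_pos_right hlt (by positivity)

/-- **No fixed vector**, from (SS). -/
theorem no_fixed_SSV {t : ℂ} {α β : ℝ} (hα : 0 < α)
    (ht : t = Complex.exp (-2 * ((α : ℂ) + β * Complex.I))) {n : ℕ} {l : ℕ → ℝ}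
    (hl2 : 0 ≤ l 2) (hmono : ∀ k, k + 3 ≤ n → l (k + 2) ≤ l (k + 3) + α)
    (hfin : ∀ k, k + 2 ≤ n → l (k + 2) < ((k : ℝ) + 2) * α)
    (hSS : ∀ k, k + 3 ≤ n →
      ‖D ((α : ℂ) + β * Complex.I) (k + 2) ^ 2 - 1‖ + Real.cosh (l (k + 2) + l (k + 3) - α)
        < ‖D ((α : ℂ) + β * Complex.I) (k + 2)‖ ^ 2 * Real.cosh (α + l (k + 3) - l (k + 2)))
    (hn1 : 1 ≤ n) (A : List (ℕ × ℕ)) (hA : ∀ p ∈ A, 1 ≤ p.1 ∧ p.1 ≤ p.2 ∧ p.2 ≤ n)
    (hn : n ∈ A.map Prod.snd ∨ n ≤ 1) {L : ℕ → ℂ} (hL0 : L 0 = 0)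
    (hLn : L n = 0) (hfix : ∀ j ≤ n, actV t A L j = L j) : ∀ j ≤ n, L j = 0 := by
  have h1 : ‖t‖ < 1 := by
    rw [Pool.Agent.Helper54.TW.norm_t ht]
    exact pow_lt_one₀ (Real.exp_pos _).le (Real.exp_lt_one_iff.2 (by linarith)) (by norm_num)
  have h0 : t ≠ 0 := by
    rw [ht]
    exact Complex.exp_ne_zero _
  have hl : ∀ k, k + 2 ≤ n → 0 < l (k + 2) + (k + 2 : ℕ) * α := by
    intro k
    induction k with
    | zero =>
      intro _
      have : 0 < ((0 + 2 : ℕ) : ℝ) * α := by positivity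
      rw [zero_add]
      have e : ((0 + 2 : ℕ) : ℝ) = ((2 : ℕ) : ℝ) := by norm_num
      rw [zero_add] at this
      linarith
    | succ k ih =>
      intro hk
      have e1 := ih (by omega)
      have e2 := hmono k (by omega)
      have e3 : k + 1 + 2 = k + 3 := by omega
      rw [e3]
      have e4 : ((k + 3 : ℕ) : ℝ) = ((k + 2 : ℕ) : ℝ) + 1 := by push_cast; ring
      rw [e4]
      nlinarith
  exact no_fixedV h1 h0 (Pool.Agent.Helper54.TW.wt_of_SS hα ht hl2 hmono hfin hSS) (mid_of hα ht hl)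
    hn1 A hA hn hL0 hLn hfix

theorem actV_conj (t : ℂ) (A : List (ℕ × ℕ)) (L : ℕ → ℂ) :
    actV ((starRingEnd ℂ) t) A (fun j => (starRingEnd ℂ) (L j)) =
      fun j => (starRingEnd ℂ) (actV t A L j) := by
  induction A generalizing L with
  | nil => rfl
  | cons p A ih =>
    rw [actV_cons, actV_cons, ← ih]
    congr 1
    funext j
    unfold Vr
    split_ifs <;> simp only [map_add, map_sub, map_mul, map_pow, map_one]

theorem freeS_of_actV {n : ℕ} (A : List (ℕ × ℕ)) (hA : ∀ p ∈ A, 1 ≤ p.1 ∧ p.1 ≤ p.2)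
    (h : ∀ (t : ℂ) (α β : ℝ), 0 < α → 0 ≤ β → β ≤ √3 * α →
      t = Complex.exp (-2 * ((α : ℂ) + β * Complex.I)) → ∀ L : ℕ → ℂ, L 0 = 0 →
      L (n + 1) = 0 → (∀ j ≤ n + 1, actV t A L j = L j) → ∀ j ≤ n + 1, L j = 0) :
    FreeS n (wdV A) := by
  intro s hs0 hs1 hk L hL0 hLn hfix
  rw [run_wdV hA hL0] at hfix
  obtain ⟨α, β, hα, hβ, ht⟩ := params hs0 hs1 hk
  have h1 : ∀ j ≤ n + 1, L j = 0 := by
    rcases le_total 0 β with hb | hb
    · rw [abs_of_nonneg hb] at hβ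
      exact h (s ^ 2) α β hα hb hβ ht L hL0 (hLn _ (by omega)) fun j _ => by rw [hfix]
    · rw [abs_of_nonpos hb] at hβ
      have h2 := h ((starRingEnd ℂ) (s ^ 2)) α (-β) hα (by linarith) hβ (by
        rw [ht, ← Complex.exp_conj]
        congr 1
        rw [map_mul, map_add, map_mul, Complex.conj_ofReal, Complex.conj_ofReal, Complex.conj_I,
          map_neg, map_ofNat]
        push_cast
        ring) (fun j => (starRingEnd ℂ) (L j)) (by simp [hL0]) (by simp [hLn (n + 1) (by omega)])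
        (fun j _ => by rw [actV_conj, hfix])
      intro j hj
      have := h2 j hj
      simpa using this
  funext j
  rcases le_or_gt j (n + 1) with hj | hj
  · exact h1 j hj
  · exact hLn j (by omega)

/-- **All words in the `V r s`, `1 ≤ r ≤ s ≤ n + 1`, with at least one `s = n + 1`.** -/
theorem freeS_V {n : ℕ} {A : List (ℕ × ℕ)} (hA : ∀ p ∈ A, 1 ≤ p.1 ∧ p.1 ≤ p.2 ∧ p.2 ≤ n + 1)
    (hn : n + 1 ∈ A.map Prod.snd) : FreeS n (wdV A) := by
  refine freeS_of_actV A (fun p hp => ⟨(hA p hp).1, (hA p hp).2.1⟩) ?_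
  intro t α β hα hβ0 hβ ht L hL0 hLn hfix
  obtain ⟨l, ⟨δ, hδ, hl0⟩, hmono, hlt, hS'⟩ := Pool.Agent.Helper60.LZ.starW
  obtain ⟨a1, ha1, hS⟩ := hS' (β / α) (by positivity) (by rw [div_le_iff₀ hα]; exact hβ)
    (((n + 1 : ℕ) : ℝ) * α) (by positivity)
  obtain ⟨a0, ha0d⟩ : ∃ a0, a0 = min a1 (δ / 2) := ⟨_, rfl⟩
  have ha0 : 0 < a0 := by rw [ha0d]; exact lt_min ha1 (by positivity)
  obtain ⟨m, hm⟩ := exists_nat_gt (α / a0)
  obtain ⟨k, hk⟩ : ∃ k, k = m + 1 := ⟨_, rfl⟩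
  have hk1 : 1 ≤ k := by omega
  have hk0 : (0:ℝ) < k := by exact_mod_cast hk1
  obtain ⟨a, ha⟩ : ∃ a, a = α / k := ⟨_, rfl⟩
  obtain ⟨b, hb⟩ : ∃ b, b = β / k := ⟨_, rfl⟩
  have hapos : 0 < a := by rw [ha]; positivity
  have hak : (k:ℝ) * a = α := by rw [ha]; field_simp
  have hbk : (k:ℝ) * b = β := by rw [hb]; field_simp
  have hbη : b = β / α * a := by rw [hb, ha]; field_simp
  have haa : a ≤ a0 := by
    rw [ha, div_le_iff₀ hk0]
    rw [div_lt_iff₀ ha0] at hm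
    have : (k:ℝ) = m + 1 := by rw [hk]; push_cast; ring
    rw [this]
    nlinarith
  have haa1 : a ≤ a1 := haa.trans (by rw [ha0d]; exact min_le_left _ _)
  have haδ : 2 * a ≤ δ := by
    have : a ≤ δ / 2 := haa.trans (by rw [ha0d]; exact min_le_right _ _)
    linarith
  obtain ⟨t', ht'⟩ : ∃ t', t' = Complex.exp (-2 * ((a : ℂ) + b * Complex.I)) := ⟨_, rfl⟩
  have htk : t' ^ k = t := by
    rw [ht', ht, ← Complex.exp_nat_mul]
    congr 1
    rw [← hak, ← hbk]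
    push_cast
    ring
  have hnt : ‖t‖ < 1 := by
    rw [ht, Complex.norm_exp]
    apply Real.exp_lt_one_iff.2
    simp [hα]
  obtain ⟨L', c, hc, hL'0, hL'k, hL'f⟩ := cablingV t t' k (n+1) hk1 htk hnt A
    (fun p hp => ⟨(hA p hp).1, (hA p hp).2.1⟩) L hL0 hfix
  have hend : ∀ j ≤ k * (n + 1), L' j = 0 := by
    refine no_fixed_SSV (l := fun r : ℕ => l (r * a)) hapos ht'
      (hl0 _ (by positivity) (by push_cast; exact haδ)) ?_ ?_ ?_ (Nat.mul_pos hk1 (by omega))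
      (cab k A) (mem_cab hk1 hA) (Or.inl ?_) hL'0 ?_ hL'f
    · intro j _
      have := hmono (((j + 2 : ℕ) : ℝ) * a) (((j + 3 : ℕ) : ℝ) * a) (by positivity) (by
        apply mul_le_mul_of_nonneg_right _ hapos.le; push_cast; linarith)
      show l (((j + 2 : ℕ) : ℝ) * a) ≤ l (((j + 3 : ℕ) : ℝ) * a) + a
      have e : ((j + 3 : ℕ) : ℝ) * a - ((j + 2 : ℕ) : ℝ) * a = a := by push_cast; ring
      linarith
    · intro j _
      have := hlt (((j + 2 : ℕ) : ℝ) * a) (by positivity)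
      show l (((j + 2 : ℕ) : ℝ) * a) < ((j : ℝ) + 2) * a
      have e : ((j + 2 : ℕ) : ℝ) = (j : ℝ) + 2 := by push_cast; ring
      rw [e] at this ⊢
      exact this
    · intro j hj
      have h1 := hS a hapos haa1 (j + 2) (by omega) (by
        have h2 : ((j + 3 : ℕ) : ℝ) ≤ ((k * (n + 1) : ℕ) : ℝ) := by exact_mod_cast hj
        calc (((j + 2 : ℕ) : ℝ) + 1) * a = ((j + 3 : ℕ) : ℝ) * a := by push_cast; ring
          _ ≤ ((k * (n + 1) : ℕ) : ℝ) * a := mul_le_mul_of_nonneg_right h2 hapos.le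
          _ = ((n + 1 : ℕ) : ℝ) * ((k : ℝ) * a) := by push_cast; ring
          _ = _ := by rw [hak])
      rw [← hbη] at h1
      have e : ((j + 2 : ℕ) : ℝ) + 1 = ((j + 3 : ℕ) : ℝ) := by push_cast; ring
      rw [e] at h1
      exact h1
    · rw [List.mem_map] at hn ⊢
      obtain ⟨p, hp, hpn⟩ := hn
      refine ⟨(k * (p.1 - 1) + 1, k * p.2), ?_, by rw [hpn]⟩
      unfold cab
      rw [List.mem_flatMap]
      exact ⟨p, hp, List.mem_replicate.2 ⟨by omega, rfl⟩⟩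
    · rw [hL'k (n+1) le_rfl, hLn, mul_zero]
  intro j hj
  have h1 := hL'k j hj
  rw [hend (k * j) (Nat.mul_le_mul_left k hj)] at h1
  rcases mul_eq_zero.1 h1.symm with h | h
  · exact absurd h hc
  · exact h

end Pool.Agent.Helper89.CX
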